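import Pool.Agent.R418.HL.Fin

/-!
# Almost all elliptic curves have no integral points up to an exponentially large height

The Hall-Lang conjecture bounds the integral points of all elliptic curves `y ^ 2 = x ^ 3 + A x + B`
by a fixed power of `max |A| |B|`. We order the curves by height in the usual way, `|A| ≤ R ^ 2`,
`|B| ≤ R ^ 3` (about `4 R ^ 5` pairs `(A, B)`). All but `M R ^ (5 - 1 / 16)` of these curves have no
integral point `(x, y)` with `|x| ≤ exp (R ^ (1 / 3000))` at all; so a failure of the conjecture, for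
whatever constants, on one of the other curves needs a point beyond `exp (R ^ (1 / 3000))`.

Proof: an integral point gives a binary quartic form with invariants `-4 A`, `-4 B`, reduced at the
scale of the point, which represents `1` at a large vector. The four first coefficients being fixed,
determinants formed with the representing vectors and powers of the last coefficient vanish; this
gives a polynomial relation, and a polynomial which is not a square but takes square values too
often.
-/

set_option autoImplicit false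

namespace Pool.Agent.Results.MP_a1107e_nt.AlmostAllCurves

/-- There is a constant `M` such that for every real `R ≥ 1` at most `M R ^ (5 - 1 / 16)` of the pairs
of integers `(A, B)` with `|A| ≤ R ^ 2` and `|B| ≤ R ^ 3` have the property that
`y ^ 2 = x ^ 3 + A x + B` has an integral solution `(x, y)` with `|x| ≤ exp (R ^ (1 / 3000))`. -/
theorem result : ∃ M : ℝ, ∀ R : ℝ, 1 ≤ R →
    {P : ℤ × ℤ | |(P.1 : ℝ)| ≤ R ^ 2 ∧ |(P.2 : ℝ)| ≤ R ^ 3 ∧
      ∃ x y : ℤ, y ^ 2 = x ^ 3 + P.1 * x + P.2 ∧
        |(x : ℝ)| ≤ Real.exp (R ^ ((1 : ℝ) / 3000))}.Finite ∧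
    ({P : ℤ × ℤ | |(P.1 : ℝ)| ≤ R ^ 2 ∧ |(P.2 : ℝ)| ≤ R ^ 3 ∧
      ∃ x y : ℤ, y ^ 2 = x ^ 3 + P.1 * x + P.2 ∧
        |(x : ℝ)| ≤ Real.exp (R ^ ((1 : ℝ) / 3000))}.ncard : ℝ) ≤ M * R ^ (5 - (1 : ℝ) / 16) := by
  obtain ⟨M, h⟩ := Pool.Agent.R418.HL.main
  refine ⟨M, fun R hR => ?_⟩
  have e : (5 - (1 : ℝ) / 16) = 79 / 16 := by norm_num
  rw [e]
  exact h R hR

end Pool.Agent.Results.MP_a1107e_nt.AlmostAllCurves
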