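import Pool.Agent.Results.MP_a1107e_nt.FewGeneratorPoints
import Pool.Agent.R770.NP.Scale

/-!
# Integral points of Weierstrass curves near a given point

Consider all pairs of an elliptic curve `y ^ 2 = x ^ 3 + A x + B`, `|A|, |B| ≤ T ^ D`, and an integral point whose
coordinates are, up to sign, products of powers of the same `N` integers of size at most `T`.  Let `φ` be any map from
the quadruples `(A, B, x, y)` to a metric space, which takes the same value on isomorphic pairs (curve, point), for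
example `x ^ 3 / y ^ 2`, `A ^ 3 / B ^ 2` or `A x / B` in `ℝ` or `ℚ_l`.  For all `ξ` outside a set of Hausdorff dimension
zero the pairs with `dist (φ (A, B, x, y)) ξ ≤ κ T ^ (-τ)` satisfy `max |x| |y| ≤ T ^ K` or
`max |x| |y| > exp (T ^ δ)`, up to isomorphism with FINITELY many exceptions.
-/

set_option autoImplicit false

namespace Pool.Agent.Results.MP_a1107e_nt.PointsNearAPoint

open FewGeneratorPoints (Generated LargePoint Scales)

/-- The pairs (curve, point) given by the quadruples `p`, `q` are isomorphic over `ℚ`. -/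
def Iso (p q : ℤ × ℤ × ℤ × ℤ) : Prop :=
  ∃ r : ℚ, r ≠ 0 ∧ Scales r p.1 p.2.1 p.2.2.1 p.2.2.2 q.1 q.2.1 q.2.2.1 q.2.2.2

/-- isomorphism is an equivalence relation -/
def st : Setoid (ℤ × ℤ × ℤ × ℤ) where
  r := Iso
  iseqv := {
    refl := fun _ => ⟨1, one_ne_zero, by simp [Scales]⟩
    symm := by
      rintro p q ⟨r, hr, h1, h2, h3, h4⟩
      refine ⟨r⁻¹, inv_ne_zero hr, ?_, ?_, ?_, ?_⟩
      · rw [h1]
        field_simp
      · rw [h2]
        field_simp
      · rw [h3]
        field_simp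
      · rw [h4]
        field_simp
    trans := by
      rintro p q s ⟨r, hr, h1, h2, h3, h4⟩ ⟨r', hr', g1, g2, g3, g4⟩
      refine ⟨r * r', mul_ne_zero hr hr', ?_, ?_, ?_, ?_⟩
      · rw [h1, g1]
        ring
      · rw [h2, g2]
        ring
      · rw [h3, g3]
        ring
      · rw [h4, g4]
        ring }

lemma large_mono {N D K : ℕ} {δ : ℝ} (hδ : 0 < δ) {T T' : ℕ} (hT : 2 ≤ T) (h1 : T ≤ T') (h2 : T' ≤ T ^ 2)
    {A B x y : ℤ} (h : LargePoint N D (2 * K) δ T A B x y) : LargePoint N D K δ T' A B x y := by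
  have hT0 : (0 : ℤ) ≤ (T : ℤ) := by positivity
  have hTT : (T : ℤ) ≤ (T' : ℤ) := by exact_mod_cast h1
  have hTT2 : (T' : ℤ) ≤ (T : ℤ) ^ 2 := by exact_mod_cast h2
  refine ⟨h.A_le.trans (pow_le_pow_left₀ hT0 hTT _), h.B_le.trans (pow_le_pow_left₀ hT0 hTT _), h.disc, h.eqn,
    ?_, ?_, ?_⟩
  · obtain ⟨η, θ, b, e, f, g1, g2, g3, g4, g5⟩ := h.gen
    exact ⟨η, θ, b, e, f, g1, g2, fun j => ⟨(g3 j).1, (g3 j).2.trans h1⟩, g4, g5⟩
  · refine lt_of_le_of_lt ?_ h.large
    calc (T' : ℤ) ^ K ≤ ((T : ℤ) ^ 2) ^ K := pow_le_pow_left₀ (by positivity) hTT2 _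
      _ = (T : ℤ) ^ (2 * K) := by rw [← pow_mul]
  · refine h.bound.trans (Real.exp_le_exp.2 ?_)
    exact Real.rpow_le_rpow (by positivity) (by exact_mod_cast h1) hδ.le

/-- **Theorem.** Let `φ` be a map from the quadruples `(A, B, x, y)` of integers to a metric space `X`, which takes the
same value on isomorphic pairs (curve, point).  There is `E ⊆ X` of Hausdorff dimension zero such that for all `ξ ∈ X`
outside `E`, all `τ > 0` and all `N`, `D` there are `K` and `δ > 0` such that for every `κ` there is a finite set `S` of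
quadruples with the following property.  Let `T ≥ 2`, let `(x, y)` be an integral point of the elliptic curve
`y ^ 2 = x ^ 3 + A x + B` with `|A|, |B| ≤ T ^ D`, whose coordinates are up to sign products of powers of the same `N`
integers between `1` and `T`, let `T ^ K < max |x| |y| ≤ exp (T ^ δ)` and `dist (φ (A, B, x, y)) ξ ≤ κ T ^ (-τ)`.  Then
`(A, B, x, y)` is isomorphic to a member of `S`. -/
theorem result (X : Type) [MetricSpace X] (φ : ℤ × ℤ × ℤ × ℤ → X) (hφ : ∀ p q, Iso p q → φ p = φ q) :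
    ∃ E : Set X, dimH E = 0 ∧ ∀ ξ : X, ξ ∉ E → ∀ τ : ℝ, 0 < τ → ∀ N D : ℕ, ∃ (K : ℕ) (δ : ℝ), 0 < δ ∧
      ∀ κ : ℝ, ∃ S : Finset (ℤ × ℤ × ℤ × ℤ), ∀ (A B x y : ℤ) (T : ℕ), 2 ≤ T → LargePoint N D K δ T A B x y →
        dist (φ (A, B, x, y)) ξ ≤ κ * (T : ℝ) ^ (-τ) → ∃ s ∈ S, Iso (A, B, x, y) s := by
  classical
  have H := fun (j : ℕ) (p : ℕ × ℕ) => FewGeneratorPoints.result p.1 p.2 (1 / ((j : ℝ) + 1)) (by positivity)
  choose K δ hδ hK using H
  have hc : Countable (Quotient st) := inferInstance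
  obtain ⟨E, hE, h⟩ := R770.NP.near_dyad (Y := ℕ × ℕ) st hc φ hφ
    (fun j p k f => 1 ≤ k ∧ LargePoint p.1 p.2 (K j p) (δ j p) (2 ^ k) f.1 f.2.1 f.2.2.1 f.2.2.2)
    (by
      intro j p
      refine ⟨1, fun k S hS hsep => ?_⟩
      rcases Nat.eq_zero_or_pos k with hk | hk
      · have : S = ∅ := by
          apply Finset.eq_empty_of_forall_notMem
          intro a ha
          have := (hS a ha).1
          omega
        rw [this, Finset.card_empty, Nat.cast_zero]
        positivity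
      · have h2 : 2 ≤ 2 ^ k := by
          calc 2 = 2 ^ 1 := by norm_num
            _ ≤ 2 ^ k := Nat.pow_le_pow_right (by norm_num) hk
        obtain ⟨S0, h3, -, h4⟩ := hK j p (2 ^ k) h2
        have h5 : S.card ≤ S0.card := by
          apply R770.NP.card_le_of_cover st S S0 _ hsep
          intro a ha
          obtain ⟨-, h6⟩ := hS a ha
          obtain ⟨s, h7, r, h8, h9⟩ := h4 _ _ _ _ h6
          exact ⟨s, h7, r, h8, h9⟩
        have h6 : (S.card : ℝ) ≤ (S0.card : ℝ) := by exact_mod_cast h5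
        refine h6.trans (h3.trans ?_)
        rw [one_mul]
        push_cast
        exact le_refl _)
  refine ⟨E, hE, fun ξ hξ τ hτ N D => ?_⟩
  obtain ⟨j, hj⟩ := h ξ hξ τ hτ
  refine ⟨2 * K j (N, D), δ j (N, D), hδ j (N, D), fun κ => ?_⟩
  obtain ⟨S, hS⟩ := hj (N, D) (κ * 2 ^ τ)
  refine ⟨S, fun A B x y T hT hl hd => ?_⟩
  obtain ⟨s, hs, hs'⟩ := hS (A, B, x, y) (Nat.log 2 T + 1)
    ⟨by omega, large_mono (hδ j (N, D)) hT (R770.NP.lt_two_pow T).le (R770.NP.two_pow_le_sq hT) hl⟩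
    (R770.NP.dist_dyad (by omega) hτ dist_nonneg hd)
  exact ⟨s, hs, st.symm' hs'⟩

end Pool.Agent.Results.MP_a1107e_nt.PointsNearAPoint
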