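import Pool.Agent.R728.RC.Each
import Pool.Agent.Results.MP_a1107e_nt.AlmostAllCurves

/-!
# Integral points on all Weierstrass curves in random residue classes

Let `𝓜` be a set of moduli with `∑ m ^ (-s) < ∞` and let `X m` be random elements of any sets
`Y m`, each value of which has probability at most `K m ^ (-θ)`; no independence is assumed. Let
`φ m` be any maps from the pairs `(A, B)` of integers to `Y m`, and let `ρ ≥ 0` and
`(5 - 1/16) ρ ≤ θ - s`. Almost surely, for all but finitely many `m` in `𝓜`, for ALL pairs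
`(A, B)` with `|A| ≤ m ^ (2 ρ)`, `|B| ≤ m ^ (3 ρ)` and `φ m (A, B) = X m`, the equation
`y² = x³ + A x + B` has no integral solution with `|x| ≤ exp (m ^ (ρ / 3000))`.

For instance, for `A ≡ X mod m²` and `B ≡ X' mod m³`, where `m` runs over the powers of two and
`(X, X')` is a random pair of 2-adic integers, `θ = 5` and `s` is any positive number, so that
`ρ = 1 + 1/80` is allowed: in a random thin family of about `4 m ^ (5 (ρ - 1))` curves none of the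
curves has an integral point with `|x|` up to an exponential bound in the height of the curve.
-/

set_option autoImplicit false

namespace Pool.Agent.Results.MP_a1107e_nt.RandomResidues

open MeasureTheory

/-- **Theorem.** Let `𝓜` be a set of positive integers with a convergent sum of the `m ^ (-s)`, let
`X m` be random elements of arbitrary sets `Y m`, each value of which has probability at most
`K m ^ (-θ)` (no independence is assumed), let `φ m` be any maps from the pairs of integers to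
`Y m`, and let `ρ ≥ 0` and `(5 - 1/16) ρ ≤ θ - s`. Almost surely, for all but finitely many `m` in
`𝓜`, for ALL integers `A`, `B` with `|A| ≤ m ^ (2 ρ)`, `|B| ≤ m ^ (3 ρ)` and `φ m (A, B) = X m`, the
equation `y² = x³ + A x + B` has no integral solution with `|x| ≤ exp (m ^ (ρ / 3000))`. -/
theorem result (𝓜 : Set ℕ) (s θ K ρ : ℝ) (Ω : Type) [MeasurableSpace Ω]
    (P : Measure Ω) (Y : ℕ → Type) (X : ∀ m : ℕ, Ω → Y m) (φ : ∀ m : ℕ, ℤ × ℤ → Y m)
    (h0 : ∀ m ∈ 𝓜, 0 < m) (hsum : Summable fun m : 𝓜 => ((m : ℕ) : ℝ) ^ (-s))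
    (hX : ∀ m ∈ 𝓜, ∀ y : Y m, P {ω | X m ω = y} ≤ ENNReal.ofReal (K * (m : ℝ) ^ (-θ)))
    (hρ : 0 ≤ ρ) (h : (5 - 1 / 16) * ρ ≤ θ - s) :
    ∀ᵐ ω ∂P, ∃ m₀ : ℕ, ∀ m ∈ 𝓜, m₀ ≤ m → ∀ A B : ℤ,
      |(A : ℝ)| ≤ (m : ℝ) ^ (2 * ρ) → |(B : ℝ)| ≤ (m : ℝ) ^ (3 * ρ) → φ m (A, B) = X m ω →
      ∀ x y : ℤ, y ^ 2 = x ^ 3 + A * x + B → Real.exp ((m : ℝ) ^ (ρ / 3000)) < |(x : ℝ)| := by
  obtain ⟨M, hM⟩ := AlmostAllCurves.result
  have hmain := Pool.Agent.R728.RC.eventually_each (𝓜 := 𝓜) (s := s) (θ := θ) (A := K)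
    (D := |M|) (X := X) (φ := φ) (P := P)
    (F := fun m => {Q : ℤ × ℤ | |(Q.1 : ℝ)| ≤ ((m : ℝ) ^ ρ) ^ 2 ∧ |(Q.2 : ℝ)| ≤ ((m : ℝ) ^ ρ) ^ 3 ∧
      ∃ x y : ℤ, y ^ 2 = x ^ 3 + Q.1 * x + Q.2 ∧
        |(x : ℝ)| ≤ Real.exp (((m : ℝ) ^ ρ) ^ ((1 : ℝ) / 3000))})
    h0 hsum hX (by
      intro m hm
      have hm1 : (1 : ℝ) ≤ (m : ℝ) := by exact_mod_cast h0 m hm
      have hm0 : (0 : ℝ) < (m : ℝ) := by linarith
      have hρ1 : (1 : ℝ) ≤ (m : ℝ) ^ ρ := Real.one_le_rpow hm1 hρ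
      obtain ⟨h1, h2⟩ := hM ((m : ℝ) ^ ρ) hρ1
      refine ⟨h1, h2.trans ?_⟩
      calc M * ((m : ℝ) ^ ρ) ^ (5 - (1 : ℝ) / 16)
          ≤ |M| * ((m : ℝ) ^ ρ) ^ (5 - (1 : ℝ) / 16) :=
            mul_le_mul_of_nonneg_right (le_abs_self M) (by positivity)
        _ = |M| * (m : ℝ) ^ ((5 - 1 / 16) * ρ) := by
            rw [← Real.rpow_mul hm0.le, mul_comm ρ]
        _ ≤ |M| * (m : ℝ) ^ (θ - s) :=
            mul_le_mul_of_nonneg_left (Real.rpow_le_rpow_of_exponent_le hm1 h) (abs_nonneg M))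
  filter_upwards [hmain] with ω hω
  obtain ⟨m₀, hm₀⟩ := hω
  refine ⟨m₀, fun m hm hmm A B h1 h2 h3 x y hxy => ?_⟩
  have hm0 : (0 : ℝ) < (m : ℝ) := by exact_mod_cast h0 m hm
  by_contra hcon
  push Not at hcon
  refine hm₀ m hm hmm (A, B) ⟨?_, ?_, x, y, hxy, ?_⟩ h3
  · rw [← Real.rpow_natCast, ← Real.rpow_mul hm0.le]
    push_cast
    rwa [mul_comm ρ]
  · rw [← Real.rpow_natCast, ← Real.rpow_mul hm0.le]
    push_cast
    rwa [mul_comm ρ]
  · rw [← Real.rpow_mul hm0.le]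
    rwa [mul_one_div]

end Pool.Agent.Results.MP_a1107e_nt.RandomResidues
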