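import Pool.Agent.Results.MP_a1107e_nt.AlmostAllCurves
import Pool.Agent.R482.ST.PolarW

/-!
# All elliptic curves near powers, orbits and other sequences have no integral points of small height

Let `f_k`, `k = 0, 1, 2, …`, be positive functions on `(a₀, ∞)`, `a₀ ≥ 0`, such that `f_k(t) / t` is nondecreasing, and such
that the sequence `f_k(t)` has exponent of convergence at most `τ` for each `t > a₀`: for instance `f_k(t) = v_k t`
(dilatations; `τ` the exponent of convergence of `v_k > 0`), `f_k(t) = t ^ (v_k)` for exponents `v_k ≥ 1` (`τ = 0`), or the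
orbits `f_k(t) = g (g (⋯ g (t)))` of any map `g` with `g(t) > t` and `g(t) / t` nondecreasing (`τ = 0`).
Let `θ < 1`. For all `(α, β)`, `α > a₀`, outside a set of Hausdorff dimension at most `(95 / 16 - θ + τ) / (3 (1 - θ))` (for
`τ = θ = 0` this is `95 / 48 < 2`) and all constants `c`, for all but finitely many `k`, with `r = f_k(α)`: ALL curves
`y ^ 2 = x ^ 3 + A x + B` with integers `A` near `± r ^ 2` and `B` near `β r ^ 3` have no integral point `(x, y)` with
`|x| ≤ exp (r ^ (1 / 3000))`; so the Hall-Lang conjecture, with any constants, holds for these curves up to an exponentially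
large height.
-/

set_option autoImplicit false

namespace Pool.Agent.Results.MP_a1107e_nt.StarshapedCurves

/-- the functions `f n` are positive on `(a, ∞)`, `a ≥ 0`, and `f n x / x` is nondecreasing there -/
def Starshaped (a : ℝ) (f : ℕ → ℝ → ℝ) : Prop :=
  0 ≤ a ∧ ∀ n : ℕ, ∀ x y : ℝ, a < x → x ≤ y → 0 < f n x ∧ f n x / x ≤ f n y / y

/-- for each `x > a` the exponent of convergence of the sequence `f n x` is at most `τ` -/
def ExpLe (a : ℝ) (f : ℕ → ℝ → ℝ) (τ : ℝ) : Prop :=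
  ∀ x : ℝ, a < x → ∀ t : ℝ, τ < t → Summable (fun n : ℕ => (f n x) ^ (-t))

/-- **Theorem.** Let `f` be starshaped functions on `(a, ∞)` of exponent of convergence at most `τ ≥ 0` and `θ < 1`. There is a
set `E` of Hausdorff dimension at most `(95 / 16 - θ + τ) / (3 (1 - θ))` in the plane such that for each `(α, β)` outside `E`,
`α > a`, each `c` and all but finitely many `k`, with `r = f_k(α)`: for ALL integers `A`, `B` with
`||A| - r ^ 2| ≤ c (r ^ θ) ^ 2` and `|B - β r ^ 3| ≤ c (r ^ θ) ^ 3` and all integral solutions of `y ^ 2 = x ^ 3 + A x + B` one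
has `|x| > exp (r ^ (1 / 3000))`.
The functions `v_n x`, `v_n > 0`, are starshaped on `(0, ∞)`, of exponent `τ` if `v` has exponent of convergence at most
`τ`; the functions `x ^ (v_n)`, `v_n ≥ 1`, are starshaped on `(1, ∞)`, of exponent `0` if the sums of `exp (-t v_n)` converge
for `t > 0`; and the iterates of a map `g` with `g(x) > x` for `x > a` and `g(x) / x` nondecreasing are starshaped on
`(a, ∞)`, of exponent `0`. -/
theorem result :
    (∀ (f : ℕ → ℝ → ℝ) (a τ θ : ℝ), Starshaped a f → 0 ≤ τ → ExpLe a f τ → θ < 1 →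
      ∃ E : Set (ℝ × ℝ), dimH E ≤ ENNReal.ofReal ((95 / 16 - θ + τ) / (3 * (1 - θ))) ∧
        ∀ α β : ℝ, a < α → (α, β) ∉ E → ∀ c : ℝ, ∃ k₀ : ℕ, ∀ k : ℕ, k₀ ≤ k → ∀ A B : ℤ,
          |(|(A : ℝ)| - (f k α) ^ 2)| ≤ c * ((f k α) ^ θ) ^ 2 → |(B : ℝ) - β * (f k α) ^ 3| ≤ c * ((f k α) ^ θ) ^ 3 →
            ∀ x y : ℤ, y ^ 2 = x ^ 3 + A * x + B → Real.exp ((f k α) ^ ((1 : ℝ) / 3000)) < |(x : ℝ)|) ∧
    (∀ (v : ℕ → ℝ) (τ : ℝ), (∀ n, 0 < v n) → (∀ t : ℝ, τ < t → Summable (fun n : ℕ => (v n) ^ (-t))) →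
      Starshaped 0 (fun n x => v n * x) ∧ ExpLe 0 (fun n x => v n * x) τ) ∧
    (∀ v : ℕ → ℝ, (∀ n, 1 ≤ v n) → (∀ t : ℝ, 0 < t → Summable fun n : ℕ => Real.exp (-(t * v n))) →
      Starshaped 1 (fun n x => x ^ (v n)) ∧ ExpLe 1 (fun n x => x ^ (v n)) 0) ∧
    (∀ (a : ℝ) (g : ℝ → ℝ), 0 ≤ a → (∀ x y : ℝ, a < x → x ≤ y → g x / x ≤ g y / y) → (∀ x : ℝ, a < x → x < g x) →
      Starshaped a (fun n x => g^[n] x) ∧ ExpLe a (fun n x => g^[n] x) 0) := by
  refine ⟨fun f a τ θ hf hτ hE hθ => ?_, Pool.Agent.R482.ST.ex_mul, Pool.Agent.R482.ST.ex_pow, Pool.Agent.R482.ST.ex_orbit⟩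
  obtain ⟨M, hM⟩ := AlmostAllCurves.result
  have hpos : ∀ k α, a < α → 0 < f k α := fun k α hα => (hf.2 k α α hα le_rfl).1
  obtain ⟨E, h1, h2⟩ := Pool.Agent.R482.ST.polar_windows
    (P := fun z R => ∃ x y : ℤ, y ^ 2 = x ^ 3 + z.1 * x + z.2 ∧ |(x : ℝ)| ≤ Real.exp ((max R 0) ^ ((1 : ℝ) / 3000)))
    (fun z X Y hXY ⟨x, y, h1, h2⟩ => ⟨x, y, h1, h2.trans (Real.exp_le_exp.2 (Real.rpow_le_rpow (le_max_right _ _)
      (max_le_max hXY le_rfl) (by norm_num)))⟩)
    (s := 5 - (1 : ℝ) / 16) (C := M) (by norm_num) (fun R hR => by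
      have e : max R 0 = R := max_eq_left (by linarith)
      simp only [e]
      exact hM R hR) hf hτ hE hθ
  refine ⟨E, h1.trans (le_of_eq ?_), fun α β hα hαE c => ?_⟩
  · congr 2
    ring
  · obtain ⟨k₀, hk⟩ := h2 α β hα hαE c
    refine ⟨k₀, fun k hk1 A B hA hB x y hxy => ?_⟩
    by_contra hcon
    push Not at hcon
    refine hk k hk1 (A, B) hA hB ⟨x, y, hxy, ?_⟩
    rw [max_eq_left (hpos k α hα).le]
    exact hcon

end Pool.Agent.Results.MP_a1107e_nt.StarshapedCurves
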